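import Pool.Agent.N299.ND.Stm

/-!
Project ND, part NOCH: no characters on the central sequence algebra `F(I)`.
-/

set_option autoImplicit false

open scoped BoundedContinuousFunction Topology
open Filter

noncomputable section

namespace Pool.Agent.N316.ND

open Pool.Agent.N299 Pool.Agent.N299.DT Pool.Agent.N299.ND

section

variable {B Q : Type} [CStarAlgebra B] [CStarAlgebra Q]

/-- a sequence of contractions as a bounded function -/
def bs (u : ℕ → B) (hu : ∀ n, ‖u n‖ ≤ 1) : ℕ →ᵇ B :=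
  BoundedContinuousFunction.ofNormedAddCommGroupDiscrete u 1 hu

theorem bs_apply (u : ℕ → B) (hu : ∀ n, ‖u n‖ ≤ 1) (n : ℕ) : bs u hu n = u n := rfl

theorem cst_apply (a : B) (n : ℕ) : cst a n = a := rfl

theorem q_zero {ω : Ultrafilter ℕ} {q : (ℕ →ᵇ B) →⋆ₐ[ℂ] Q} (hq : IsUP B Q ω q)
    (hω : (ω : Filter ℕ) ≤ atTop) (v : ℕ →ᵇ B) (k : ℕ)
    (hv : ∀ n ≥ k, ‖v n‖ ≤ 1 / ((n : ℝ) + 1)) : q v = 0 := by
  rw [hq.ker]
  have h1 : Tendsto (fun n => ‖v n‖) atTop (𝓝 0) := by
    refine squeeze_zero' (Eventually.of_forall fun n => norm_nonneg _) ?_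
      tendsto_one_div_add_atTop_nhds_zero_nat
    filter_upwards [eventually_ge_atTop k] with n hn
    exact hv n hn
  exact h1.mono_left hω

theorem continuous_q (q : (ℕ →ᵇ B) →⋆ₐ[ℂ] Q) : Continuous fun b : B => q (cst b) := by
  have h1 : Continuous fun b : B => cst b := by
    refine Metric.continuous_iff.2 fun b ε hε => ⟨ε / 2, by positivity, fun a ha => ?_⟩
    refine lt_of_le_of_lt ?_ (half_lt_self hε)
    rw [BoundedContinuousFunction.dist_le (by positivity)]
    intro n
    rw [cst_apply, cst_apply]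
    exact ha.le
  exact (continuous_hom q).comp h1

/-- a relation which holds for a dense sequence of `I` holds on `I` -/
theorem on_I {I : Submodule ℂ B} {a : ℕ → B} (ha : (I : Set B) ⊆ closure (Set.range a))
    {f g : B → Q} (hf : Continuous f) (hg : Continuous g) (h : ∀ k, f (a k) = g (a k)) :
    ∀ b ∈ I, f b = g b := by
  intro b hb
  have h1 : closure (Set.range a) ⊆ {b | f b = g b} := by
    apply closure_minimal _ (isClosed_eq hf hg)
    rintro _ ⟨k, rfl⟩
    exact h k
  exact h1 (ha hb)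

theorem mem_cen {q : (ℕ →ᵇ B) →⋆ₐ[ℂ] Q} {I : Submodule ℂ B} (hI : Idl I) {z : Q}
    (h : ∀ b ∈ I, z * q (cst b) = q (cst b) * z) : z ∈ CenI q I := by
  unfold CenI
  rw [StarSubalgebra.mem_centralizer_iff]
  rintro _ ⟨b, hb, rfl⟩
  refine ⟨(h b hb).symm, ?_⟩
  have h1 : star (q (cst b)) = q (cst (star b)) := by
    rw [← map_star]
    congr 1
  simp only
  rw [h1]
  exact (h _ (hI.star b hb)).symm

theorem seq_cen {ω : Ultrafilter ℕ} {q : (ℕ →ᵇ B) →⋆ₐ[ℂ] Q} (hq : IsUP B Q ω q)
    (hω : (ω : Filter ℕ) ≤ atTop) {I : Submodule ℂ B} (hI : Idl I) {a : ℕ → B}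
    (ha : (I : Set B) ⊆ closure (Set.range a)) (u : ℕ → B) (hu : ∀ n, ‖u n‖ ≤ 1)
    (h : ∀ n k, k ≤ n → ‖u n * a k - a k * u n‖ ≤ 1 / ((n : ℝ) + 1)) :
    q (bs u hu) ∈ CenI q I := by
  apply mem_cen hI
  have hc := continuous_q q
  refine on_I ha (f := fun b => q (bs u hu) * q (cst b)) (g := fun b => q (cst b) * q (bs u hu))
    (continuous_const.mul hc) (hc.mul continuous_const) ?_
  intro k
  show q (bs u hu) * q (cst (a k)) = q (cst (a k)) * q (bs u hu)
  rw [← sub_eq_zero, ← map_mul, ← map_mul, ← map_sub]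
  apply q_zero hq hω _ k
  intro n hn
  exact h n k hn

end

theorem t_NOCH : S_NOCH := by
  intro B Q _ _ _ ω q hq hω I m K hI hFL E _ ρ hρ χ
  classical
  -- a dense sequence
  have : SecondCountableTopology B := UniformSpace.secondCountable_of_separable B
  have : Nonempty I := ⟨0⟩
  obtain ⟨a, hamem, ha⟩ : ∃ a : ℕ → B, (∀ k, a k ∈ I) ∧ (I : Set B) ⊆ closure (Set.range a) := by
    refine ⟨fun k => (TopologicalSpace.denseSeq I k : B), fun k => Subtype.mem _, ?_⟩
    intro b hb
    have h1 := TopologicalSpace.denseRange_denseSeq I ⟨b, hb⟩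
    have h2 := image_closure_subset_closure_image (f := (Subtype.val : I → B))
      continuous_subtype_val (s := Set.range (TopologicalSpace.denseSeq I))
      (Set.mem_image_of_mem _ h1)
    rw [← Set.range_comp] at h2
    exact h2
  let F : ℕ → Finset B := fun n => (Finset.range (n + 1)).image a
  have hFI : ∀ n, ∀ b ∈ F n, b ∈ I := by
    intro n b hb
    obtain ⟨k, -, rfl⟩ := Finset.mem_image.1 hb
    exact hamem k
  have hFa : ∀ n k, k ≤ n → a k ∈ F n := fun n k hk =>
    Finset.mem_image.2 ⟨k, Finset.mem_range.2 (by omega), rfl⟩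
  have hex : ∀ n : ℕ, ∃ (H : Fin (m + 1) → B) (X Z Y : Fin (m + 1) → Fin K → B),
      FLx I m K (F n) (1 / ((n : ℝ) + 1)) H X Z Y := fun n =>
    hFL (F n) _ (hFI n) (by positivity)
  choose H X Z Y hx using hex
  have cH : ∀ i, q (bs (fun n => H n i) fun n => (hx n).nH i) ∈ CenI q I := fun i =>
    seq_cen hq hω hI ha _ _ fun n k hk => (hx n).cH i _ (hFa n k hk)
  have cX : ∀ i s, q (bs (fun n => X n i s) fun n => (hx n).nX i s) ∈ CenI q I := fun i s =>
    seq_cen hq hω hI ha _ _ fun n k hk => (hx n).cX i s _ (hFa n k hk)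
  have cZ : ∀ i s, q (bs (fun n => Z n i s) fun n => (hx n).nZ i s) ∈ CenI q I := fun i s =>
    seq_cen hq hω hI ha _ _ fun n k hk => (hx n).cZ i s _ (hFa n k hk)
  have cY : ∀ i s, q (bs (fun n => Y n i s) fun n => (hx n).nY i s) ∈ CenI q I := fun i s =>
    seq_cen hq hω hI ha _ _ fun n k hk => (hx n).cY i s _ (hFa n k hk)
  -- relations
  have rZ : ∀ i s, q (bs (fun n => Z n i s) fun n => (hx n).nZ i s) *
      q (bs (fun n => Z n i s) fun n => (hx n).nZ i s) = 0 := by
    intro i s
    rw [← map_mul]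
    exact q_zero hq hω _ 0 fun n _ => (hx n).sq i s
  have rH : ∀ i, q (bs (fun n => H n i) fun n => (hx n).nH i) ^ 3 =
      ∑ s, q (bs (fun n => X n i s) fun n => (hx n).nX i s) *
        q (bs (fun n => Z n i s) fun n => (hx n).nZ i s) *
        q (bs (fun n => Y n i s) fun n => (hx n).nY i s) := by
    intro i
    rw [← sub_eq_zero, ← map_pow]
    simp only [← map_mul]
    rw [← map_sum, ← map_sub]
    refine q_zero hq hω _ 0 fun n _ => ?_
    have h1 := (hx n).cu i
    refine le_trans (le_of_eq ?_) h1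
    congr 1
    rw [BoundedContinuousFunction.coe_sub, Pi.sub_apply, BoundedContinuousFunction.coe_pow,
      Pi.pow_apply, BoundedContinuousFunction.coe_sum, Finset.sum_apply]
    rfl
  have r1 : ∀ b ∈ I, (∑ i, q (bs (fun n => H n i) fun n => (hx n).nH i)) * q (cst b) =
      q (cst b) := by
    have hc := continuous_q q
    refine on_I ha (f := fun b => (∑ i, q (bs (fun n => H n i) fun n => (hx n).nH i)) *
      q (cst b)) (g := fun b => q (cst b)) (continuous_const.mul hc) hc ?_
    intro k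
    show (∑ i, q (bs (fun n => H n i) fun n => (hx n).nH i)) * q (cst (a k)) = q (cst (a k))
    rw [← sub_eq_zero, ← map_sum, ← map_mul, ← map_sub]
    apply q_zero hq hω _ k
    intro n hn
    have h1 := (hx n).one _ (hFa n k hn)
    refine le_trans (le_of_eq ?_) h1
    congr 1
    rw [BoundedContinuousFunction.coe_sub, Pi.sub_apply, BoundedContinuousFunction.coe_mul,
      Pi.mul_apply, BoundedContinuousFunction.coe_sum, Finset.sum_apply]
    rfl
  -- in the commutant
  let h : Fin (m + 1) → CenI q I := fun i => ⟨_, cH i⟩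
  let x : Fin (m + 1) → Fin K → CenI q I := fun i s => ⟨_, cX i s⟩
  let z : Fin (m + 1) → Fin K → CenI q I := fun i s => ⟨_, cZ i s⟩
  let y : Fin (m + 1) → Fin K → CenI q I := fun i s => ⟨_, cY i s⟩
  have hz : ∀ i s, z i s * z i s = 0 := fun i s => Subtype.ext (rZ i s)
  have hh : ∀ i, h i ^ 3 = ∑ s, x i s * z i s * y i s := by
    intro i
    apply Subtype.ext
    have e1 : ((∑ s, x i s * z i s * y i s : CenI q I) : Q) =
        ∑ s, ((x i s * z i s * y i s : CenI q I) : Q) := by
      exact map_sum (CenI q I).subtype _ _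
    rw [e1]
    exact rH i
  have hsum : ρ (∑ i, h i) = 1 := by
    rw [← sub_eq_zero, ← map_one ρ, ← map_sub, hρ.ker]
    intro b hb
    have e1 : ((∑ i, h i - 1 : CenI q I) : Q) =
        (∑ i, q (bs (fun n => H n i) fun n => (hx n).nH i)) - 1 := by
      have e2 := map_sum (CenI q I).subtype h Finset.univ
      have e3 : (CenI q I).subtype (∑ i, h i - 1) = (CenI q I).subtype (∑ i, h i) - 1 := by
        rw [map_sub, map_one]
      exact e3.trans (by rw [e2]; rfl)
    rw [e1, sub_mul, one_mul, r1 b hb, sub_self]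
  have kz : ∀ i s, χ (ρ (z i s)) = 0 := by
    intro i s
    have e1 : χ (ρ (z i s)) * χ (ρ (z i s)) = 0 := by
      rw [← map_mul, ← map_mul, hz, map_zero, map_zero]
    exact mul_self_eq_zero.1 e1
  have kh : ∀ i, χ (ρ (h i)) = 0 := by
    intro i
    have e1 : χ (ρ (h i)) ^ 3 = 0 := by
      rw [← map_pow, ← map_pow, hh, map_sum, map_sum]
      apply Finset.sum_eq_zero
      intro s _
      rw [map_mul, map_mul, map_mul, map_mul, kz, mul_zero, zero_mul]
    exact pow_eq_zero_iff (three_ne_zero) |>.1 e1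
  have e1 : χ (ρ (∑ i, h i)) = 1 := by rw [hsum, map_one]
  rw [map_sum, map_sum, Finset.sum_eq_zero fun i _ => kh i] at e1
  exact zero_ne_one e1

end Pool.Agent.N316.ND
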